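import Pool.Agent.D0H23.PP.Stm

/-!
# Module BC of PP: Borel-Cantelli
-/

set_option autoImplicit false

open Finset Filter MeasureTheory ProbabilityTheory

namespace Pool.Agent.D0H35.PP

open Pool.Agent.D0H23.PP

lemma six_le {a b : ℝ} (h : a < b) : ∀ᶠ x : ℝ in atTop, 6 * x ^ a ≤ x ^ b := by
  have h1 : ∀ᶠ x : ℝ in atTop, 6 ≤ x ^ (b - a) :=
    (tendsto_rpow_atTop (by linarith : 0 < b - a)).eventually_ge_atTop 6
  filter_upwards [h1, eventually_gt_atTop 0] with x hx hx0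
  calc 6 * x ^ a ≤ x ^ (b - a) * x ^ a :=
        mul_le_mul_of_nonneg_right hx (Real.rpow_nonneg hx0.le _)
    _ = x ^ b := by
        rw [← Real.rpow_add hx0]
        congr 1
        ring

lemma log_le : ∀ᶠ x : ℝ in atTop, Real.log (8 * x + 1) ≤ x ^ (1 / 100 : ℝ) ∧
    Real.log x ≤ x ^ (1 / 100 : ℝ) := by
  have h1 : ∀ᶠ x : ℝ in atTop, Real.log x ≤ (1 / 2) * x ^ (1 / 100 : ℝ) := by
    have := (isLittleO_log_rpow_atTop (by norm_num : (0 : ℝ) < 1 / 100)).bound
      (by norm_num : (0 : ℝ) < 1 / 2)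
    filter_upwards [this, eventually_gt_atTop 0] with x hx hx0
    rw [Real.norm_eq_abs, Real.norm_eq_abs, abs_of_nonneg (Real.rpow_nonneg hx0.le _)] at hx
    exact (le_abs_self _).trans hx
  have h2 : ∀ᶠ x : ℝ in atTop, 2 * Real.log 9 ≤ x ^ (1 / 100 : ℝ) :=
    (tendsto_rpow_atTop (by norm_num : (0 : ℝ) < 1 / 100)).eventually_ge_atTop _
  filter_upwards [h1, h2, eventually_ge_atTop 1] with x hx1 hx2 hx3
  have h0 : 0 ≤ x ^ (1 / 100 : ℝ) := Real.rpow_nonneg (by linarith) _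
  constructor
  · have h4 : Real.log (8 * x + 1) ≤ Real.log (9 * x) :=
      Real.log_le_log (by linarith) (by linarith)
    rw [Real.log_mul (by norm_num) (by linarith)] at h4
    linarith
  · linarith

/-- the asymptotic inequality: `a` = exponent of the number of rounds, `b` = exponent of the gain -/
lemma asym {a b : ℝ} (ha : 0 ≤ a) (hb : a + 1 / 100 < b) :
    ∀ᶠ x : ℝ in atTop, (x ^ a + 1) * Real.log (8 * x + 1) + x ^ (-(1 / 16) : ℝ) * (x ^ a + 1) +
      2 * Real.log x ≤ x ^ b := by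
  filter_upwards [six_le hb, log_le, eventually_ge_atTop 1] with x h6 hl hx1
  have hx0 : 0 < x := by linarith
  have e1 : 1 ≤ x ^ a := Real.one_le_rpow hx1 ha
  have e2 : 1 ≤ x ^ (1 / 100 : ℝ) := Real.one_le_rpow hx1 (by norm_num)
  have e3 : x ^ (-(1 / 16) : ℝ) ≤ 1 := Real.rpow_le_one_of_one_le_of_nonpos hx1 (by norm_num)
  have e4 : 0 ≤ x ^ (-(1 / 16) : ℝ) := Real.rpow_nonneg hx0.le _
  have e5 : x ^ (a + 1 / 100) = x ^ a * x ^ (1 / 100 : ℝ) := Real.rpow_add hx0 _ _
  have e6 : 0 ≤ Real.log (8 * x + 1) := Real.log_nonneg (by linarith)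
  have t1 : (x ^ a + 1) * Real.log (8 * x + 1) ≤ 2 * (x ^ a * x ^ (1 / 100 : ℝ)) := by
    calc (x ^ a + 1) * Real.log (8 * x + 1) ≤ (2 * x ^ a) * x ^ (1 / 100 : ℝ) :=
          mul_le_mul (by linarith) hl.1 e6 (by linarith)
      _ = _ := by ring
  have t2 : x ^ (-(1 / 16) : ℝ) * (x ^ a + 1) ≤ 2 * (x ^ a * x ^ (1 / 100 : ℝ)) := by
    calc x ^ (-(1 / 16) : ℝ) * (x ^ a + 1) ≤ 1 * (2 * x ^ a) :=
          mul_le_mul e3 (by linarith) (by linarith) (by norm_num)
      _ = 2 * (x ^ a * 1) := by ring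
      _ ≤ _ := by gcongr
  have t3 : 2 * Real.log x ≤ 2 * (x ^ a * x ^ (1 / 100 : ℝ)) := by
    have : Real.log x ≤ x ^ a * x ^ (1 / 100 : ℝ) := by
      calc Real.log x ≤ x ^ (1 / 100 : ℝ) := hl.2
        _ = 1 * x ^ (1 / 100 : ℝ) := (one_mul _).symm
        _ ≤ _ := by gcongr
    linarith
  rw [e5] at h6
  linarith

/-- one term of the bound -/
lemma term_le {x K S T l : ℝ} {s : ℕ} (hx : 1 ≤ x) (hK0 : 0 ≤ K) (hK : K ≤ 8 * x) (hs : (s : ℝ) ≤ S)
    (hT : S * Real.log (8 * x + 1) + 2 * Real.log x ≤ l * T) :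
    (K + 1) ^ s * Real.exp (-(l * T)) ≤ 1 / x ^ 2 := by
  have h1 : (K + 1) ^ s ≤ Real.exp (S * Real.log (8 * x + 1)) := by
    calc (K + 1) ^ s ≤ (8 * x + 1) ^ s := by gcongr
      _ = Real.exp (s * Real.log (8 * x + 1)) := by
          rw [Real.exp_nat_mul, Real.exp_log (by linarith)]
      _ ≤ _ := by
          apply Real.exp_le_exp.mpr
          exact mul_le_mul_of_nonneg_right hs (Real.log_nonneg (by linarith))
  calc (K + 1) ^ s * Real.exp (-(l * T)) ≤
        Real.exp (S * Real.log (8 * x + 1)) * Real.exp (-(l * T)) :=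
        mul_le_mul_of_nonneg_right h1 (Real.exp_pos _).le
    _ = Real.exp (S * Real.log (8 * x + 1) - l * T) := by
        rw [← Real.exp_add]
        congr 1
    _ ≤ Real.exp (-(2 * Real.log x)) := by
        apply Real.exp_le_exp.mpr
        linarith
    _ = 1 / x ^ 2 := by
        rw [Real.exp_neg, one_div]
        congr 1
        have : (2 : ℝ) * Real.log x = ((2 : ℕ) : ℝ) * Real.log x := by norm_num
        rw [this, Real.exp_nat_mul, Real.exp_log (by linarith)]

theorem t_BC : S_TWO → S_BC := by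
  intro hTWO Ω _ μ _ Y hm hind C C' M hdisj hyp
  classical
  set A : ℕ → Set Ω := fun n => {ω | Odd n ∧
    ((hit2 (C n) (C' n) (M n) (fun k => Y k ω)).card : ℝ) < (n : ℝ) ^ (1 / 16 : ℝ)} with hA
  have hcast : Tendsto (fun n : ℕ => (n : ℝ)) atTop atTop := tendsto_natCast_atTop_atTop
  have q1 := hcast.eventually (asym (a := 1 / 4) (b := 13 / 48) (by norm_num) (by norm_num))
  have q2 := hcast.eventually (asym (a := 1 / 16) (b := 3 / 16) (by norm_num) (by norm_num))
  have q3 := hcast.eventually (six_le (a := 1 / 4) (b := 1 / 3) (by norm_num))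
  have hbound : ∀ᶠ n : ℕ in atTop, μ.real (A n) ≤ 2 * (1 / (n : ℝ) ^ 2) := by
    filter_upwards [hyp, q1, q2, q3, eventually_ge_atTop 1] with n hn p1 p2 p3 hn1
    by_cases hodd : Odd n
    · obtain ⟨m1, m2, m3⟩ := hn hodd
      have hx : (1 : ℝ) ≤ n := by exact_mod_cast hn1
      have hx0 : (0 : ℝ) < n := by linarith
      have hm2 : ((M n).card : ℝ) ≤ 8 * (n : ℝ) := by exact_mod_cast m2
      set x : ℝ := (n : ℝ) with hxdef
      set l : ℝ := x ^ (-(1 / 16) : ℝ) with hl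
      have hl0 : 0 ≤ l := Real.rpow_nonneg hx0.le _
      set s : ℕ := ⌈x ^ (1 / 4 : ℝ)⌉₊ with hs
      set r : ℕ := ⌈x ^ (1 / 16 : ℝ)⌉₊ with hr
      have hs1 : x ^ (1 / 4 : ℝ) ≤ s := Nat.le_ceil _
      have hs2 : (s : ℝ) ≤ x ^ (1 / 4 : ℝ) + 1 := (Nat.ceil_lt_add_one (Real.rpow_nonneg hx0.le _)).le
      have hr1 : x ^ (1 / 16 : ℝ) ≤ r := Nat.le_ceil _
      have hr2 : (r : ℝ) ≤ x ^ (1 / 16 : ℝ) + 1 :=
        (Nat.ceil_lt_add_one (Real.rpow_nonneg hx0.le _)).le
      have hrs : r ≤ s := Nat.ceil_le_ceil (Real.rpow_le_rpow_of_exponent_le hx (by norm_num))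
      have h14 : 1 ≤ x ^ (1 / 4 : ℝ) := Real.one_le_rpow hx (by norm_num)
      have hsM : s ≤ (M n).card := by
        have : (s : ℝ) ≤ (M n).card := by linarith
        exact_mod_cast this
      have hT := hTWO Ω μ Y hm hind (C n) (C' n) (M n) l hl0 (hdisj n) m3 r s hrs hsM
      have hsub : A n ⊆ {ω | (hit2 (C n) (C' n) (M n) (fun k => Y k ω)).card < r} := by
        rintro ω ⟨-, hω⟩
        have : ((hit2 (C n) (C' n) (M n) (fun k => Y k ω)).card : ℝ) < r := hω.trans_le hr1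
        exact_mod_cast this
      have hmono : μ.real (A n) ≤
          μ.real {ω | (hit2 (C n) (C' n) (M n) (fun k => Y k ω)).card < r} :=
        measureReal_mono hsub
      have t1 : (((M n).card : ℝ) + 1) ^ s * Real.exp (-(l * (((M n).card : ℝ) - s))) ≤
          1 / x ^ 2 := by
        apply term_le hx (Nat.cast_nonneg _) hm2 hs2
        have e1 : l * x ^ (1 / 3 : ℝ) = x ^ (13 / 48 : ℝ) := by
          rw [hl, ← Real.rpow_add hx0]
          norm_num
        have e2 : l * x ^ (1 / 3 : ℝ) ≤ l * (M n).card := mul_le_mul_of_nonneg_left m1 hl0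
        have e3 : l * s ≤ l * (x ^ (1 / 4 : ℝ) + 1) := mul_le_mul_of_nonneg_left hs2 hl0
        rw [mul_sub]
        linarith
      have t2 : (((M n).card : ℝ) + 1) ^ r * Real.exp (-(l * ((s : ℝ) - r))) ≤ 1 / x ^ 2 := by
        apply term_le hx (Nat.cast_nonneg _) hm2 hr2
        have e1 : l * x ^ (1 / 4 : ℝ) = x ^ (3 / 16 : ℝ) := by
          rw [hl, ← Real.rpow_add hx0]
          norm_num
        have e2 : l * x ^ (1 / 4 : ℝ) ≤ l * s := mul_le_mul_of_nonneg_left hs1 hl0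
        have e3 : l * r ≤ l * (x ^ (1 / 16 : ℝ) + 1) := mul_le_mul_of_nonneg_left hr2 hl0
        rw [mul_sub]
        linarith
      linarith
    · have : A n = ∅ := by
        rw [hA]
        ext ω
        simp [hodd]
      rw [this, measureReal_empty]
      positivity
  have hsum : Summable (fun n => μ.real (A n)) := by
    have hs2 : Summable (fun n : ℕ => 2 * (1 / (n : ℝ) ^ 2)) :=
      (Real.summable_one_div_nat_pow.mpr (by norm_num)).mul_left 2
    refine Summable.of_norm_bounded_eventually_nat hs2 ?_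
    filter_upwards [hbound] with n hn
    rwa [Real.norm_eq_abs, abs_of_nonneg measureReal_nonneg]
  have hfin : ∑' n, μ (A n) ≠ ⊤ := by
    have h1 := hsum.tsum_ofReal_ne_top
    have h2 : ∀ n, ENNReal.ofReal (μ.real (A n)) = μ (A n) := fun n => ofReal_measureReal
    simpa only [h2] using h1
  filter_upwards [ae_eventually_notMem hfin] with ω hω
  filter_upwards [hω] with n hn hodd
  by_contra hcon
  exact hn ⟨hodd, not_le.mp hcon⟩

end Pool.Agent.D0H35.PP
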