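import Pool.Agent.D0H23.PP.Stm

/-! Module 2 TWO: two independent rounds. -/

set_option autoImplicit false

namespace Pool.Agent.D0H35.PP

open Finset Filter MeasureTheory ProbabilityTheory Pool.Agent.D0H23.PP

theorem meas_pi {ι : Type} [Finite ι] (S : Set (ι → ℕ)) : MeasurableSet S := (Set.to_countable S).measurableSet

open Classical in
theorem hitp_eq {Ω : Type} (Y : ℕ → Ω → ℕ) (C T : Finset ℕ) (ω : Ω) :
    hitp C T (fun k => Y k ω) = T.filter (fun t => ∃ k : C, Y k ω = t) := by
  unfold hitp
  apply Finset.filter_congr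
  intro t _
  constructor
  · rintro ⟨k, hk, h⟩
    exact ⟨⟨k, hk⟩, h⟩
  · rintro ⟨k, h⟩
    exact ⟨k, k.2, h⟩

/-- **2 TWO.** -/
theorem t_TWO : S_AV → S_TWO := by
  classical
  intro hAV Ω _ μ _ Y hY hi C C' M l hl hd hM r s hrs hsM
  have a1 := hAV Ω μ Y hY hi C M l hl (fun t ht => (hM t ht).2.1) s
  let f : Ω → (C → ℕ) := fun ω i => Y i ω
  let g : Ω → (C' → ℕ) := fun ω i => Y i ω
  have hf : Measurable f := measurable_pi_lambda _ fun i => hY i
  have hfg : IndepFun f g μ := hi.indepFun_finset C C' hd hY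
  let E : Finset ℕ → Set Ω := fun U => {ω | hitp C M (fun k => Y k ω) = U}
  let B : Finset ℕ → Set Ω := fun U => {ω | (hitp C' (U.image (fun t => t - 2)) (fun k => Y k ω)).card < r}
  have hE1 : ∀ U, E U = f ⁻¹' {v | M.filter (fun t => ∃ k : C, v k = t) = U} := by
    intro U
    ext ω
    change hitp C M (fun k => Y k ω) = U ↔ M.filter (fun t => ∃ k : C, Y k ω = t) = U
    rw [hitp_eq]
  have hB1 : ∀ U, B U = g ⁻¹' {v | ((U.image (fun t => t - 2)).filter (fun t => ∃ k : C', v k = t)).card < r} := by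
    intro U
    ext ω
    change (hitp C' (U.image (fun t => t - 2)) (fun k => Y k ω)).card < r ↔
      ((U.image (fun t => t - 2)).filter (fun t => ∃ k : C', Y k ω = t)).card < r
    rw [hitp_eq]
  have hEm : ∀ U, MeasurableSet (E U) := by
    intro U
    rw [hE1]
    exact hf (meas_pi _)
  have hind : ∀ U, μ.real (E U ∩ B U) = μ.real (E U) * μ.real (B U) := by
    intro U
    rw [hE1, hB1, measureReal_def, measureReal_def, measureReal_def,
      hfg.measure_inter_preimage_eq_mul _ _ (meas_pi _) (meas_pi _), ENNReal.toReal_mul]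
  let W : Finset (Finset ℕ) := M.powerset.filter (fun U => s ≤ U.card)
  have hsub : {ω | (hit2 C C' M (fun k => Y k ω)).card < r} ⊆
      {ω | (hitp C M (fun k => Y k ω)).card < s} ∪ ⋃ U ∈ W, (E U ∩ B U) := by
    intro ω hω
    by_cases h : (hitp C M (fun k => Y k ω)).card < s
    · exact Or.inl h
    · right
      push Not at h
      have hU : hitp C M (fun k => Y k ω) ∈ W := by
        rw [Finset.mem_filter, Finset.mem_powerset]
        exact ⟨Finset.filter_subset _ _, h⟩
      refine Set.mem_biUnion hU ⟨rfl, ?_⟩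
      change (hitp C' ((hitp C M (fun k => Y k ω)).image (fun t => t - 2)) (fun k => Y k ω)).card < r
      refine lt_of_le_of_lt ?_ hω
      have hss : hitp C' ((hitp C M (fun k => Y k ω)).image (fun t => t - 2)) (fun k => Y k ω) ⊆
          (hit2 C C' M (fun k => Y k ω)).image (fun t => t - 2) := by
        intro t ht
        unfold hitp at ht
        rw [Finset.mem_filter, Finset.mem_image] at ht
        obtain ⟨⟨u, hu, rfl⟩, hk⟩ := ht
        rw [Finset.mem_filter] at hu
        rw [Finset.mem_image]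
        refine ⟨u, ?_, rfl⟩
        unfold hit2
        rw [Finset.mem_filter]
        exact ⟨hu.1, hu.2, hk⟩
      exact (Finset.card_le_card hss).trans Finset.card_image_le
  have hB : ∀ U ∈ W, μ.real (B U) ≤ ((M.card : ℝ) + 1) ^ r * Real.exp (-(l * ((s : ℝ) - r))) := by
    intro U hU
    rw [Finset.mem_filter, Finset.mem_powerset] at hU
    obtain ⟨hUM, hsU⟩ := hU
    have hinj : Set.InjOn (fun t : ℕ => t - 2) (U : Set ℕ) := by
      intro a ha b hb hab
      have h1 := (hM a (hUM (Finset.mem_coe.1 ha))).1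
      have h2 := (hM b (hUM (Finset.mem_coe.1 hb))).1
      have h3 : a - 2 = b - 2 := hab
      omega
    have hc : (U.image (fun t => t - 2)).card = U.card := Finset.card_image_of_injOn hinj
    have h := hAV Ω μ Y hY hi C' (U.image (fun t => t - 2)) l hl (by
      intro t ht
      rw [Finset.mem_image] at ht
      obtain ⟨u, hu, rfl⟩ := ht
      exact (hM u (hUM hu)).2.2) r
    rw [hc] at h
    refine h.trans ?_
    have hUc : (U.card : ℝ) ≤ M.card := by exact_mod_cast Finset.card_le_card hUM
    have hsc : (s : ℝ) ≤ U.card := by exact_mod_cast hsU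
    apply mul_le_mul _ _ (Real.exp_pos _).le (by positivity)
    · exact pow_le_pow_left₀ (by positivity) (by linarith) r
    · apply Real.exp_le_exp.2
      have := mul_le_mul_of_nonneg_left (sub_le_sub_right hsc (r : ℝ)) hl
      linarith
  have hE : ∑ U ∈ W, μ.real (E U) ≤ 1 := by
    have hdis : Set.PairwiseDisjoint (W : Set (Finset ℕ)) E := by
      intro U _ V _ hUV
      rw [Function.onFun, Set.disjoint_left]
      intro ω h1 h2
      exact hUV (Eq.trans (Eq.symm h1) h2)
    rw [← measureReal_biUnion_finset hdis (fun U _ => hEm U)]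
    exact measureReal_le_one
  calc μ.real {ω | (hit2 C C' M (fun k => Y k ω)).card < r}
      ≤ μ.real ({ω | (hitp C M (fun k => Y k ω)).card < s} ∪ ⋃ U ∈ W, (E U ∩ B U)) := measureReal_mono hsub
    _ ≤ μ.real {ω | (hitp C M (fun k => Y k ω)).card < s} + μ.real (⋃ U ∈ W, (E U ∩ B U)) :=
        measureReal_union_le _ _
    _ ≤ μ.real {ω | (hitp C M (fun k => Y k ω)).card < s} + ∑ U ∈ W, μ.real (E U ∩ B U) := by
        gcongr
        exact measureReal_biUnion_finset_le _ _
    _ ≤ μ.real {ω | (hitp C M (fun k => Y k ω)).card < s} +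
        ∑ U ∈ W, μ.real (E U) * (((M.card : ℝ) + 1) ^ r * Real.exp (-(l * ((s : ℝ) - r)))) := by
        gcongr with U hU
        rw [hind]
        exact mul_le_mul_of_nonneg_left (hB U hU) measureReal_nonneg
    _ ≤ ((M.card : ℝ) + 1) ^ s * Real.exp (-(l * ((M.card : ℝ) - s))) +
        ((M.card : ℝ) + 1) ^ r * Real.exp (-(l * ((s : ℝ) - r))) := by
        rw [← Finset.sum_mul]
        refine add_le_add a1 ?_
        have h0 : 0 ≤ ((M.card : ℝ) + 1) ^ r * Real.exp (-(l * ((s : ℝ) - r))) := by positivity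
        calc _ ≤ 1 * (((M.card : ℝ) + 1) ^ r * Real.exp (-(l * ((s : ℝ) - r)))) :=
              mul_le_mul_of_nonneg_right hE h0
          _ = _ := one_mul _

end Pool.Agent.D0H35.PP
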